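import Pool.Agent.Helper74.OKA.Defs

/-! Piece C3: étale families with compact core give sprays. -/

set_option autoImplicit false

open Set Metric Topology
open scoped Manifold ContDiff
open Pool.Agent.Helper74.OKA

namespace Pool.Agent.Helper60.OKA

universe u

namespace C3

variable (F : Type) [NormedAddCommGroup F] [NormedSpace ℂ F] [FiniteDimensional ℂ F]
  {Y : Type u} [MetricSpace Y] [ChartedSpace F Y] [IsManifold 𝓘(ℂ, F) 1 Y]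
  {E : Type} [NormedAddCommGroup E] [NormedSpace ℂ E] [FiniteDimensional ℂ E]

/-- local inverse data -/
def Data (s : E × F → Y) (O : Set (E × F)) (N : Set (E × Y)) (Θ : E × Y → F) : Prop :=
  IsOpen N ∧ ContinuousOn Θ N ∧
    (∀ z t, (z, t) ∈ O → (z, s (z, t)) ∈ N ∧ Θ (z, s (z, t)) = t) ∧
    (∀ z y, (z, y) ∈ N → (z, Θ (z, y)) ∈ O ∧ s (z, Θ (z, y)) = y) ∧
    ∀ (Z : Type) [NormedAddCommGroup Z] [NormedSpace ℂ Z] [FiniteDimensional ℂ Z] (D : Set Z)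
      (q : Z → E) (g : Z → Y), IsOpen D → DifferentiableOn ℂ q D →
      MDifferentiableOn 𝓘(ℂ, Z) 𝓘(ℂ, F) g D → (∀ x ∈ D, (q x, g x) ∈ N) →
      DifferentiableOn ℂ (fun x => Θ (q x, g x)) D

omit [FiniteDimensional ℂ F] [IsManifold 𝓘(ℂ, F) 1 Y] [FiniteDimensional ℂ E] in
/-- uniform data near a compact set -/
theorem exists_uniform (X : Set E) (hX : IsCompact X) (s : E × F → Y)
    (het : ∀ z ∈ X, EtaleAt F s (z, 0)) :
    ∃ U' : Set E, IsOpen U' ∧ X ⊆ U' ∧ ∃ r' > 0, ∀ z ∈ U', ∃ (O : Set (E × F)) (N : Set (E × Y))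
      (Θ : E × Y → F), Data F s O N Θ ∧ ∀ t ∈ ball (0 : F) r', (z, t) ∈ O := by
  refine hX.induction_on (p := fun S => ∃ U' : Set E, IsOpen U' ∧ S ⊆ U' ∧ ∃ r' > 0,
    ∀ z ∈ U', ∃ (O : Set (E × F)) (N : Set (E × Y))
      (Θ : E × Y → F), Data F s O N Θ ∧ ∀ t ∈ ball (0 : F) r', (z, t) ∈ O) ?_ ?_ ?_ ?_
  · exact ⟨∅, isOpen_empty, subset_rfl, 1, one_pos, fun z hz => hz.elim⟩
  · rintro S T hST ⟨U', h1, h2, h3⟩
    exact ⟨U', h1, hST.trans h2, h3⟩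
  · rintro S T ⟨U1, h1, h2, r1, hr1, h3⟩ ⟨U2, k1, k2, r2, hr2, k3⟩
    refine ⟨U1 ∪ U2, h1.union k1, union_subset_union h2 k2, min r1 r2, lt_min hr1 hr2, ?_⟩
    rintro z (hz | hz)
    · obtain ⟨O, N, Θ, hd, ht⟩ := h3 z hz
      exact ⟨O, N, Θ, hd, fun t ht' => ht t (ball_subset_ball (min_le_left _ _) ht')⟩
    · obtain ⟨O, N, Θ, hd, ht⟩ := k3 z hz
      exact ⟨O, N, Θ, hd, fun t ht' => ht t (ball_subset_ball (min_le_right _ _) ht')⟩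
  · intro z hz
    obtain ⟨O, N, Θ, hO, hzO, hN, hΘ, h1, h2, h3⟩ := het z hz
    obtain ⟨V, W, hV, hW, hzV, h0W, hVW⟩ := isOpen_prod_iff.1 hO z 0 hzO
    obtain ⟨ρ, hρ, hball⟩ := Metric.isOpen_iff.1 hW 0 h0W
    refine ⟨V, mem_nhdsWithin_of_mem_nhds (hV.mem_nhds hzV), V, hV, subset_rfl, ρ, hρ, ?_⟩
    intro z' hz'
    exact ⟨O, N, Θ, ⟨hN, hΘ, h1, h2, h3⟩, fun t ht => hVW ⟨hz', hball ht⟩⟩

end C3

open C3

variable (F : Type) [NormedAddCommGroup F] [NormedSpace ℂ F] [FiniteDimensional ℂ F]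
  {Y : Type u} [MetricSpace Y] [ChartedSpace F Y] [IsManifold 𝓘(ℂ, F) 1 Y]
  {E : Type} [NormedAddCommGroup E] [NormedSpace ℂ E] [FiniteDimensional ℂ E]

/-- C3: étale families with compact core give sprays -/
theorem hasSpray_of_etale (f : E → Y) (X : Set E) (hX : IsCompact X) (U : Set E) (r : ℝ)
    (hU : IsOpen U) (hXU : X ⊆ U) (hr : 0 < r) (s : E × F → Y)
    (hs : MDifferentiableOn 𝓘(ℂ, E × F) 𝓘(ℂ, F) s (U ×ˢ ball 0 r))
    (hcore : ∀ z ∈ U, s (z, 0) = f z) (het : ∀ z ∈ X, EtaleAt F s (z, 0)) :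
    HasSpray F f X := by
  classical
  obtain ⟨U₀, hU₀, hXU₀, r₀, hr₀, hdata⟩ := exists_uniform F X hX s het
  set U' : Set E := U ∩ U₀ with hU'def
  set r' : ℝ := min r r₀ with hr'def
  have hU' : IsOpen U' := hU.inter hU₀
  have hr' : 0 < r' := lt_min hr hr₀
  have hr0 : ball (0 : F) r' ⊆ ball 0 r₀ := ball_subset_ball (min_le_right _ _)
  have hr1 : ball (0 : F) r' ⊆ ball 0 r := ball_subset_ball (min_le_left _ _)
  -- injectivity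
  have hinj : ∀ z ∈ U', ∀ t ∈ ball (0 : F) r', ∀ t' ∈ ball (0 : F) r', s (z, t) = s (z, t') →
      t = t' := by
    intro z hz t ht t' ht' h
    obtain ⟨O, N, Θ, hd, hO⟩ := hdata z hz.2
    have e1 := (hd.2.2.1 z t (hO t (hr0 ht))).2
    have e2 := (hd.2.2.1 z t' (hO t' (hr0 ht'))).2
    rw [← e1, ← e2, h]
  set N : Set (E × Y) := {p | p.1 ∈ U' ∧ ∃ t ∈ ball (0 : F) r', s (p.1, t) = p.2} with hNdef
  set Θ : E × Y → F := fun p => if h : ∃ t ∈ ball (0 : F) r', s (p.1, t) = p.2 then h.choose else 0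
    with hΘdef
  have hΘ : ∀ p ∈ N, Θ p ∈ ball (0 : F) r' ∧ s (p.1, Θ p) = p.2 := by
    intro p hp
    have e : Θ p = hp.2.choose := by
      simp only [hΘdef]
      rw [dif_pos hp.2]
    rw [e]
    exact hp.2.choose_spec
  -- local description
  have hloc : ∀ p ∈ N, ∃ (O : Set (E × F)) (N₀ : Set (E × Y)) (Θ₀ : E × Y → F),
      Data F s O N₀ Θ₀ ∧ ∃ N' : Set (E × Y), IsOpen N' ∧ p ∈ N' ∧ N' ⊆ N₀ ∧ N' ⊆ N ∧
        ∀ x ∈ N', Θ x = Θ₀ x := by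
    rintro ⟨z₀, y₀⟩ ⟨hz₀, t₀, ht₀, hty⟩
    simp only at hz₀ hty
    obtain ⟨O, N₀, Θ₀, hd, hO⟩ := hdata z₀ hz₀.2
    refine ⟨O, N₀, Θ₀, hd, N₀ ∩ Θ₀ ⁻¹' (ball 0 r') ∩ (U' ×ˢ univ),
      (hd.2.1.isOpen_inter_preimage hd.1 isOpen_ball).inter (hU'.prod isOpen_univ), ?_,
      fun x hx => hx.1.1, ?_, ?_⟩
    · have h1 := hd.2.2.1 z₀ t₀ (hO t₀ (hr0 ht₀))
      rw [hty] at h1
      refine ⟨⟨h1.1, ?_⟩, hz₀, mem_univ _⟩
      rw [mem_preimage, h1.2]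
      exact ht₀
    · rintro ⟨z, y⟩ ⟨⟨h1, h2⟩, h3, -⟩
      exact ⟨h3, Θ₀ (z, y), h2, (hd.2.2.2.1 z y h1).2⟩
    · rintro ⟨z, y⟩ ⟨⟨h1, h2⟩, h3, -⟩
      have hmem : (z, y) ∈ N := ⟨h3, Θ₀ (z, y), h2, (hd.2.2.2.1 z y h1).2⟩
      have h4 := hΘ _ hmem
      exact hinj z h3 _ h4.1 _ h2 (h4.2.trans (hd.2.2.2.1 z y h1).2.symm)
  have hNopen : IsOpen N := by
    rw [isOpen_iff_forall_mem_open]
    intro p hp
    obtain ⟨O, N₀, Θ₀, hd, N', hN', hpN', -, hsub, -⟩ := hloc p hp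
    exact ⟨N', hsub, hN', hpN'⟩
  refine ⟨U', r', s, Θ, N, hU', subset_inter hXU hXU₀, hr',
    hs.mono (prod_mono inter_subset_left hr1), fun z hz => hcore z hz.1, hNopen, ?_, ?_, ?_, ?_⟩
  · intro p hp
    obtain ⟨O, N₀, Θ₀, hd, N', hN', hpN', hsub0, hsub, heq⟩ := hloc p hp
    have h1 : ContinuousAt Θ₀ p := hd.2.1.continuousAt (hd.1.mem_nhds (hsub0 hpN'))
    have h2 : Θ =ᶠ[𝓝 p] Θ₀ := by
      filter_upwards [hN'.mem_nhds hpN'] with x hx using heq x hx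
    exact (h1.congr h2.symm).continuousWithinAt
  · intro z hz t ht
    have hmem : (z, s (z, t)) ∈ N := ⟨hz, t, ht, rfl⟩
    have h4 := hΘ _ hmem
    exact ⟨hmem, hinj z hz _ h4.1 _ ht h4.2⟩
  · intro z y hzy
    have h4 := hΘ _ hzy
    exact ⟨hzy.1, h4.1, h4.2⟩
  · intro Z _ _ _ D q g hD hq hg hqg x hx
    obtain ⟨O, N₀, Θ₀, hd, N', hN', hpN', hsub0, hsub, heq⟩ := hloc _ (hqg x hx)
    have hcont : ContinuousOn (fun x => (q x, g x)) D :=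
      hq.continuousOn.prodMk hg.continuousOn
    have hD' : IsOpen (D ∩ (fun x => (q x, g x)) ⁻¹' N') := hcont.isOpen_inter_preimage hD hN'
    have h1 := hd.2.2.2.2 Z (D ∩ (fun x => (q x, g x)) ⁻¹' N') q g hD'
      (hq.mono inter_subset_left) (hg.mono inter_subset_left) (fun x hx => hsub0 hx.2)
    have h2 : DifferentiableAt ℂ (fun x => Θ₀ (q x, g x)) x :=
      h1.differentiableAt (hD'.mem_nhds ⟨hx, hpN'⟩)
    refine (h2.congr_of_eventuallyEq ?_).differentiableWithinAt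
    filter_upwards [hD'.mem_nhds ⟨hx, hpN'⟩] with x' hx' using heq _ hx'.2

end Pool.Agent.Helper60.OKA
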